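import Pool.Agent.L7h29.FB.Lip

/-!
# Project FB, part DIV: the duality inequality
-/

set_option autoImplicit false
set_option linter.unusedVariables false

open MeasureTheory Metric Set Filter Topology InnerProductGeometry
open scoped ContDiff

noncomputable section

namespace Pool.Agent.L7h29.FB

open Pool.Agent.H241R3.FV (E Sph sig)
open Pool.Agent.L7h64.FB

/-- the radial cutoff: support in `(1, 4)` -/
def bump : ContDiffBump (5 / 2 : ℝ) := ⟨1, 3 / 2, by norm_num, by norm_num⟩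

/-- the cutoff as a function of `|z|²` -/
def χ (s : ℝ) : ℝ := bump s

theorem χ_cd : ContDiff ℝ ∞ χ := bump.contDiff

theorem χ_nonneg (s : ℝ) : 0 ≤ χ s := bump.nonneg

theorem χ_ne {s : ℝ} (h : χ s ≠ 0) : 1 < s ∧ s < 4 := by
  have h1 : s ∈ Function.support (bump : ℝ → ℝ) := h
  rw [bump.support_eq, Real.ball_eq_Ioo] at h1
  have h2 : bump.rOut = 3 / 2 := rfl
  rw [h2] at h1
  constructor
  · have := h1.1; norm_num at this; exact this
  · have := h1.2; norm_num at this; exact this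

theorem χ_pos {s : ℝ} (h1 : 1 < s) (h2 : s < 4) : 0 < χ s := by
  apply bump.pos_of_mem_ball
  rw [Real.ball_eq_Ioo]
  have h3 : bump.rOut = 3 / 2 := rfl
  rw [h3]
  constructor <;> linarith

theorem dχ_ne {s : ℝ} (h : deriv χ s ≠ 0) : 1 ≤ s ∧ s ≤ 4 := by
  have h1 : s ∈ tsupport χ := support_deriv_subset h
  have h2 : tsupport χ = tsupport (bump : ℝ → ℝ) := rfl
  rw [h2, bump.tsupport_eq, Real.closedBall_eq_Icc] at h1
  have h3 : bump.rOut = 3 / 2 := rfl
  rw [h3] at h1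
  constructor
  · have := h1.1; norm_num at this; exact this
  · have := h1.2; norm_num at this; exact this

/-- the radial integral -/
def KK : ℝ := ∫ y in Ioi (0 : ℝ), y ^ 2 * (y * χ (y ^ 2))

theorem rad_cont : Continuous fun y : ℝ => y ^ 2 * (y * χ (y ^ 2)) := by
  have := χ_cd.continuous
  fun_prop

theorem rad_cs : HasCompactSupport fun y : ℝ => y ^ 2 * (y * χ (y ^ 2)) := by
  apply HasCompactSupport.intro (isCompact_closedBall (0 : ℝ) 2)
  intro y hy
  have h1 : χ (y ^ 2) = 0 := by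
    by_contra hcon
    have h2 := χ_ne hcon
    apply hy
    rw [mem_closedBall, dist_zero_right, Real.norm_eq_abs]
    apply abs_le_of_sq_le_sq _ (by norm_num)
    linarith
  rw [h1]; ring

theorem rad_int : IntegrableOn (fun y : ℝ => y ^ 2 * (y * χ (y ^ 2))) (Ioi 0) :=
  (rad_cont.integrable_of_hasCompactSupport rad_cs).integrableOn

theorem KK_pos : 0 < KK := by
  unfold KK
  rw [setIntegral_pos_iff_support_of_nonneg_ae _ rad_int]
  · have h1 : Ioo (1 : ℝ) 2 ⊆ Function.support (fun y : ℝ => y ^ 2 * (y * χ (y ^ 2))) ∩ Ioi 0 := by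
      intro y hy
      have hy0 : 0 < y := by linarith [hy.1]
      refine ⟨?_, hy0⟩
      have h2 : 0 < χ (y ^ 2) := χ_pos (by nlinarith [hy.1]) (by nlinarith [hy.2])
      rw [Function.mem_support]
      positivity
    refine lt_of_lt_of_le ?_ (measure_mono h1)
    rw [Real.volume_Ioo]
    norm_num
  · rw [Filter.EventuallyLE, ae_restrict_iff' measurableSet_Ioi]
    refine Eventually.of_forall fun y hy => ?_
    have hy0 : 0 < y := hy
    have := χ_nonneg (y ^ 2)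
    simp only [Pi.zero_apply]
    positivity

/-- the second radial integral, by parts -/
theorem rad_two : ∫ y in Ioi (0 : ℝ), y ^ 2 * (2 * y ^ 3 * deriv χ (y ^ 2)) = -4 * KK := by
  have hd : ∀ y : ℝ, HasDerivAt (fun y : ℝ => y ^ 4 * χ (y ^ 2))
      (4 * (y ^ 2 * (y * χ (y ^ 2))) + y ^ 2 * (2 * y ^ 3 * deriv χ (y ^ 2))) y := by
    intro y
    have h1 : HasDerivAt χ (deriv χ (y ^ 2)) (y ^ 2) :=
      (χ_cd.differentiable (by simp)).differentiableAt.hasDerivAt
    have h2 : HasDerivAt (fun y : ℝ => y ^ 2) (2 * y) y := by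
      simpa using hasDerivAt_pow 2 y
    have h3 : HasDerivAt (fun y : ℝ => y ^ 4) (4 * y ^ 3) y := by
      simpa using hasDerivAt_pow 4 y
    have h5 : HasDerivAt (fun y : ℝ => χ (y ^ 2)) (deriv χ (y ^ 2) * (2 * y)) y :=
      HasDerivAt.comp (h₂ := χ) y h1 h2
    have h4 := h3.mul h5
    refine h4.congr_deriv ?_
    ring
  have hc2 : Continuous (deriv χ) := χ_cd.continuous_deriv (by simp)
  have hcont : Continuous fun y : ℝ => y ^ 2 * (2 * y ^ 3 * deriv χ (y ^ 2)) := by fun_prop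
  have hcs : HasCompactSupport fun y : ℝ => y ^ 2 * (2 * y ^ 3 * deriv χ (y ^ 2)) := by
    apply HasCompactSupport.intro (isCompact_closedBall (0 : ℝ) 2)
    intro y hy
    have h1 : deriv χ (y ^ 2) = 0 := by
      by_contra hcon
      have h2 := dχ_ne hcon
      apply hy
      rw [mem_closedBall, dist_zero_right, Real.norm_eq_abs]
      apply abs_le_of_sq_le_sq _ (by norm_num)
      linarith
    rw [h1]; ring
  have hi2 : IntegrableOn (fun y : ℝ => y ^ 2 * (2 * y ^ 3 * deriv χ (y ^ 2))) (Ioi 0) :=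
    (hcont.integrable_of_hasCompactSupport hcs).integrableOn
  have hlim : Tendsto (fun y : ℝ => y ^ 4 * χ (y ^ 2)) atTop (𝓝 0) := by
    apply tendsto_const_nhds.congr'
    filter_upwards [eventually_ge_atTop (2 : ℝ)] with y hy
    have h1 : χ (y ^ 2) = 0 := by
      by_contra hcon
      have h2 := χ_ne hcon
      nlinarith
    rw [h1]; ring
  have h := integral_Ioi_of_hasDerivAt_of_tendsto' (a := 0) (fun y _ => hd y)
    ((rad_int.const_mul 4).add hi2) hlim
  rw [integral_add (rad_int.const_mul 4) hi2, integral_const_mul] at h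
  unfold KK
  simp only [ne_eq, OfNat.ofNat_ne_zero, not_false_eq_true, zero_pow, zero_mul, sub_zero] at h
  linarith

/-! ### the test functions -/

/-- the test function -/
def gq (a b : E 3) (κ : ℝ) (z : E 3) : ℝ := qf a b κ z * χ (‖z‖ ^ 2)

theorem qf_cd (a b : E 3) (κ : ℝ) : ContDiff ℝ ∞ (qf a b κ) := by
  unfold qf
  have h1 : ContDiff ℝ ∞ fun z : E 3 => ‖z‖ ^ 2 := contDiff_norm_sq ℝ
  have h2 : ContDiff ℝ ∞ fun z : E 3 => (inner ℝ a z : ℝ) := contDiff_const.inner ℝ contDiff_id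
  have h3 : ContDiff ℝ ∞ fun z : E 3 => (inner ℝ b z : ℝ) := contDiff_const.inner ℝ contDiff_id
  exact (h2.mul h3).add (contDiff_const.mul h1)

theorem gq_cd (a b : E 3) (κ : ℝ) : ContDiff ℝ ∞ (gq a b κ) := by
  unfold gq
  exact (qf_cd a b κ).mul (χ_cd.comp (contDiff_norm_sq ℝ))

theorem cs_of (f : E 3 → ℝ) : HasCompactSupport fun z : E 3 => f z * χ (‖z‖ ^ 2) := by
  apply HasCompactSupport.intro (isCompact_closedBall (0 : E 3) 2)
  intro z hz
  have h1 : χ (‖z‖ ^ 2) = 0 := by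
    by_contra hcon
    have h2 := χ_ne hcon
    apply hz
    rw [mem_closedBall, dist_zero_right, ← abs_of_nonneg (norm_nonneg z)]
    apply abs_le_of_sq_le_sq _ (by norm_num)
    linarith
  rw [h1, mul_zero]

theorem cs_of' (f : E 3 → ℝ) : HasCompactSupport fun z : E 3 => f z * deriv χ (‖z‖ ^ 2) := by
  apply HasCompactSupport.intro (isCompact_closedBall (0 : E 3) 2)
  intro z hz
  have h1 : deriv χ (‖z‖ ^ 2) = 0 := by
    by_contra hcon
    have h2 := dχ_ne hcon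
    apply hz
    rw [mem_closedBall, dist_zero_right, ← abs_of_nonneg (norm_nonneg z)]
    apply abs_le_of_sq_le_sq _ (by norm_num)
    linarith
  rw [h1, mul_zero]

theorem gq_line (a b : E 3) (κ : ℝ) (c z : E 3) :
    lineDeriv ℝ (gq a b κ) z (-c) = -(dq a b κ c z * χ (‖z‖ ^ 2)) -
      (qf a b κ z * (2 * inner ℝ z c)) * deriv χ (‖z‖ ^ 2) := by
  have h0 : HasDerivAt (fun t : ℝ => z + t • (-c)) (-c) 0 := by
    have := ((hasDerivAt_id (0 : ℝ)).smul_const (-c)).const_add z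
    simpa using this
  have h1 : HasDerivAt (fun t : ℝ => (inner ℝ a (z + t • (-c)) : ℝ)) (-(inner ℝ a c : ℝ)) 0 := by
    have := (hasDerivAt_const (0 : ℝ) a).inner ℝ h0
    simpa using this
  have h2 : HasDerivAt (fun t : ℝ => (inner ℝ b (z + t • (-c)) : ℝ)) (-(inner ℝ b c : ℝ)) 0 := by
    have := (hasDerivAt_const (0 : ℝ) b).inner ℝ h0
    simpa using this
  have h3 : HasDerivAt (fun t : ℝ => ‖z + t • (-c)‖ ^ 2) (-(2 * inner ℝ z c)) 0 := by
    have := h0.norm_sq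
    simpa using this
  have h4 : HasDerivAt (fun t : ℝ => qf a b κ (z + t • (-c))) (-dq a b κ c z) 0 := by
    have h5 := (h1.mul h2).add (h3.const_mul κ)
    refine h5.congr_deriv ?_
    unfold dq
    simp only [zero_smul, add_zero]
    ring
  have h6 : HasDerivAt χ (deriv χ (‖z + (0 : ℝ) • (-c)‖ ^ 2)) (‖z + (0 : ℝ) • (-c)‖ ^ 2) :=
    (χ_cd.differentiable (by simp)).differentiableAt.hasDerivAt
  have h7 := h4.mul (h6.comp (0 : ℝ) h3)
  have h8 : HasLineDerivAt ℝ (gq a b κ) (-(dq a b κ c z * χ (‖z‖ ^ 2)) -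
      (qf a b κ z * (2 * inner ℝ z c)) * deriv χ (‖z‖ ^ 2)) z (-c) := by
    unfold HasLineDerivAt
    refine HasDerivAt.congr_deriv (f := fun t : ℝ => gq a b κ (z + t • (-c))) h7 ?_
    simp only [Function.comp, zero_smul, add_zero]
    ring
  exact h8.lineDeriv

theorem qf_hom (a b : E 3) (κ ρ : ℝ) (z : E 3) : qf a b κ (ρ • z) = ρ ^ 2 * qf a b κ z := by
  unfold qf
  rw [real_inner_smul_right, real_inner_smul_right, norm_smul, mul_pow, Real.norm_eq_abs, sq_abs]
  ring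

theorem dq_hom (a b : E 3) (κ : ℝ) (c : E 3) (ρ : ℝ) (z : E 3) :
    dq a b κ c (ρ • z) = ρ * dq a b κ c z := by
  unfold dq
  rw [real_inner_smul_right, real_inner_smul_right, real_inner_smul_left]
  ring

theorem qf_cont (a b : E 3) (κ : ℝ) : Continuous (qf a b κ) := (qf_cd a b κ).continuous

theorem dq_cont (a b : E 3) (κ : ℝ) (c : E 3) : Continuous (dq a b κ c) := by
  unfold dq
  fun_prop

/-- the integral identity -/
theorem identity (δ f : E 3 → ℝ) (C : NNReal) (hf : LipschitzWith C f)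
    (hδ : EqOn δ f {z | 1 ≤ ‖z‖}) (hhom : ∀ (ρ : ℝ) (z : E 3), 0 < ρ → δ (ρ • z) = δ z)
    (a b : E 3) (κ : ℝ) (c : E 3) :
    ∫ z, lineDeriv ℝ f z c * gq a b κ z =
      KK * ∫ u : Sph 3, δ (u : E 3) * (4 * (qf a b κ (u : E 3) * (inner ℝ (u : E 3) c : ℝ)) -
        dq a b κ c (u : E 3)) ∂(sig 3) := by
  have hfin : IsFiniteMeasure (sig 3) := by unfold sig; infer_instance
  have hcs : HasCompactSupport (gq a b κ) := cs_of _
  obtain ⟨D, hD⟩ := (gq_cd a b κ).lipschitzWith_of_hasCompactSupport hcs (by simp)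
  rw [hf.integral_lineDeriv_mul_eq hD hcs]
  simp only [gq_line]
  have hcχ := χ_cd.continuous
  have hcχ' : Continuous (deriv χ) := χ_cd.continuous_deriv (by simp)
  have hcf := hf.continuous
  have hq := qf_cont a b κ
  have hdq := dq_cont a b κ c
  -- the two parts
  have i1 : Integrable fun z : E 3 => (dq a b κ c z * f z) * χ (‖z‖ ^ 2) :=
    Continuous.integrable_of_hasCompactSupport (by fun_prop) (cs_of _)
  have i2 : Integrable fun z : E 3 => (qf a b κ z * (2 * inner ℝ z c) * f z) *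
      deriv χ (‖z‖ ^ 2) :=
    Continuous.integrable_of_hasCompactSupport (by fun_prop) (cs_of' _)
  have e0 : ∀ z : E 3, (-(dq a b κ c z * χ (‖z‖ ^ 2)) -
      (qf a b κ z * (2 * inner ℝ z c)) * deriv χ (‖z‖ ^ 2)) * f z =
      -((dq a b κ c z * f z) * χ (‖z‖ ^ 2)) -
        (qf a b κ z * (2 * inner ℝ z c) * f z) * deriv χ (‖z‖ ^ 2) := fun z => by ring
  simp only [e0]
  have i1n : Integrable fun z : E 3 => -((dq a b κ c z * f z) * χ (‖z‖ ^ 2)) := i1.neg
  rw [integral_sub i1n i2, integral_neg]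
  have hun : ∀ u : Sph 3, ‖(u : E 3)‖ = 1 := fun u => norm_eq_of_mem_sphere u
  have hzs : ∀ z : E 3, z ≠ 0 → z = ‖z‖ • (pt z : E 3) := by
    intro z hz
    rw [pt_of_ne hz, smul_smul, mul_inv_cancel₀ (norm_ne_zero_iff.2 hz), one_smul]
  have hdz : ∀ z : E 3, z ≠ 0 → 1 ≤ ‖z‖ ^ 2 → f z = δ (pt z : E 3) := by
    intro z hz h1
    have h2 : 1 ≤ ‖z‖ := by
      by_contra hcon
      push Not at hcon
      nlinarith [norm_nonneg z]
    rw [← hδ h2]
    conv_lhs => rw [hzs z hz]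
    exact hhom _ _ (norm_pos_iff.2 hz)
  rw [polar (fun z : E 3 => (dq a b κ c z * f z) * χ (‖z‖ ^ 2))
    (fun u => δ (u : E 3) * dq a b κ c (u : E 3)) (fun y => y * χ (y ^ 2)) (by
      intro z hz
      by_cases h0 : χ (‖z‖ ^ 2) = 0
      · simp only [h0, mul_zero]
      · rw [hdz z hz (χ_ne h0).1.le]
        conv_lhs => rw [show dq a b κ c z = ‖z‖ * dq a b κ c (pt z : E 3) by
          conv_lhs => rw [hzs z hz]
          exact dq_hom _ _ _ _ _ _]
        ring)]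
  rw [polar (fun z : E 3 => (qf a b κ z * (2 * inner ℝ z c) * f z) * deriv χ (‖z‖ ^ 2))
    (fun u => δ (u : E 3) * (qf a b κ (u : E 3) * (inner ℝ (u : E 3) c : ℝ)))
    (fun y => 2 * y ^ 3 * deriv χ (y ^ 2)) (by
      intro z hz
      by_cases h0 : deriv χ (‖z‖ ^ 2) = 0
      · simp only [h0, mul_zero]
      · rw [hdz z hz (dχ_ne h0).1]
        have e1 : qf a b κ z = ‖z‖ ^ 2 * qf a b κ (pt z : E 3) := by
          conv_lhs => rw [hzs z hz]
          exact qf_hom _ _ _ _ _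
        have e2 : (inner ℝ z c : ℝ) = ‖z‖ * inner ℝ (pt z : E 3) c := by
          conv_lhs => rw [hzs z hz]
          exact real_inner_smul_left _ _ _
        rw [e1, e2]
        ring)]
  rw [rad_two]
  change -((∫ u : Sph 3, δ (u : E 3) * dq a b κ c (u : E 3) ∂(sig 3)) * KK) - _ = _
  have hδc : Continuous fun u : Sph 3 => δ (u : E 3) := by
    have h1 : (fun u : Sph 3 => δ (u : E 3)) = fun u : Sph 3 => f (u : E 3) := by
      funext u
      exact hδ (show 1 ≤ ‖(u : E 3)‖ by rw [hun u])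
    rw [h1]
    exact hcf.comp continuous_subtype_val
  have hq' : Continuous fun u : Sph 3 => qf a b κ (u : E 3) := hq.comp continuous_subtype_val
  have hdq' : Continuous fun u : Sph 3 => dq a b κ c (u : E 3) := hdq.comp continuous_subtype_val
  have hic : Continuous fun u : Sph 3 => (inner ℝ (u : E 3) c : ℝ) := by fun_prop
  have j1 : Integrable (fun u : Sph 3 => 4 * (δ (u : E 3) *
      (qf a b κ (u : E 3) * (inner ℝ (u : E 3) c : ℝ)))) (sig 3) :=
    Continuous.integrable_of_hasCompactSupport (continuous_const.mul (hδc.mul (hq'.mul hic)))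
      (HasCompactSupport.of_compactSpace _)
  have j2 : Integrable (fun u : Sph 3 => δ (u : E 3) * dq a b κ c (u : E 3)) (sig 3) :=
    Continuous.integrable_of_hasCompactSupport (hδc.mul hdq')
      (HasCompactSupport.of_compactSpace _)
  have e3 : ∀ u : Sph 3, δ (u : E 3) * (4 * (qf a b κ (u : E 3) * (inner ℝ (u : E 3) c : ℝ)) -
        dq a b κ c (u : E 3)) = 4 * (δ (u : E 3) *
      (qf a b κ (u : E 3) * (inner ℝ (u : E 3) c : ℝ))) - δ (u : E 3) * dq a b κ c (u : E 3) :=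
    fun u => by ring
  simp only [e3]
  rw [integral_sub j1 j2, integral_const_mul]
  ring

/-- almost all points are off a given plane -/
theorem ae_plane (e : E 3) (he : ‖e‖ = 1) : ∀ᵐ z : E 3, (inner ℝ e z : ℝ) ≠ 0 := by
  have hs : (ℝ ∙ e)ᗮ ≠ ⊤ := by
    intro h
    have h1 : e ∈ (ℝ ∙ e)ᗮ := by rw [h]; trivial
    rw [Submodule.mem_orthogonal_singleton_iff_inner_right, real_inner_self_eq_norm_sq, he] at h1
    norm_num at h1
  have h2 := Measure.addHaar_submodule (volume : Measure (E 3)) _ hs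
  rw [ae_iff]
  refine measure_mono_null ?_ h2
  intro z hz
  simp only [ne_eq, not_not] at hz
  exact Submodule.mem_orthogonal_singleton_iff_inner_right.2 hz

theorem s_DIV : S_DIV := by
  intro e he r hr0 hr1 F hF a₁ b₁ c₁ a₂ b₂ c₂ κ₁ κ₂ hint
  obtain ⟨C, hC⟩ := dl_lip F hF e he r hr0 hr1
  obtain ⟨f, hf, hfδ⟩ := hC.extend_real
  have hfin : IsFiniteMeasure (sig 3) := by unfold sig; infer_instance
  have hhom : ∀ (ρ : ℝ) (z : E 3), 0 < ρ → dl F e r (ρ • z) = dl F e r z := fun ρ z hρ =>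
    dl_hom F e he r hr0 hr1 hρ z
  have id1 := identity (dl F e r) f C hf hfδ hhom a₁ b₁ κ₁ c₁
  have id2 := identity (dl F e r) f C hf hfδ hhom a₂ b₂ κ₂ c₂
  have hun : ∀ u : Sph 3, ‖(u : E 3)‖ = 1 := fun u => norm_eq_of_mem_sphere u
  set τ := r / √(1 - r ^ 2) with hτ
  set lam := 2 * r / (1 + r) with hlam
  -- the sum on the sphere
  have hδc : Continuous fun u : Sph 3 => dl F e r (u : E 3) := by
    have h1 : (fun u : Sph 3 => dl F e r (u : E 3)) = fun u : Sph 3 => f (u : E 3) := by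
      funext u
      exact hfδ (show 1 ≤ ‖(u : E 3)‖ by rw [hun u])
    rw [h1]
    exact hf.continuous.comp continuous_subtype_val
  have hqc : ∀ (a b : E 3) (κ : ℝ), Continuous fun u : Sph 3 => qf a b κ (u : E 3) :=
    fun a b κ => (qf_cont a b κ).comp continuous_subtype_val
  have hdc : ∀ (a b : E 3) (κ : ℝ) (c : E 3), Continuous fun u : Sph 3 => dq a b κ c (u : E 3) :=
    fun a b κ c => (dq_cont a b κ c).comp continuous_subtype_val
  have hj : ∀ (a b : E 3) (κ : ℝ) (c : E 3), Integrable (fun u : Sph 3 => dl F e r (u : E 3) *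
      (4 * (qf a b κ (u : E 3) * (inner ℝ (u : E 3) c : ℝ)) - dq a b κ c (u : E 3))) (sig 3) := by
    intro a b κ c
    have h1 := hqc a b κ
    have h2 := hdc a b κ c
    have hic : Continuous fun u : Sph 3 => (inner ℝ (u : E 3) c : ℝ) := by fun_prop
    exact Continuous.integrable_of_hasCompactSupport
      (hδc.mul ((continuous_const.mul (h1.mul hic)).sub h2))
      (HasCompactSupport.of_compactSpace _)
  have hsum : ∫ u : Sph 3, dl F e r (u : E 3) *
      (4 * (qf a₁ b₁ κ₁ (u : E 3) * (inner ℝ (u : E 3) c₁ : ℝ) +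
        qf a₂ b₂ κ₂ (u : E 3) * (inner ℝ (u : E 3) c₂ : ℝ)) -
        (dq a₁ b₁ κ₁ c₁ (u : E 3) + dq a₂ b₂ κ₂ c₂ (u : E 3))) ∂(sig 3) =
      (∫ u : Sph 3, dl F e r (u : E 3) * (4 * (qf a₁ b₁ κ₁ (u : E 3) *
        (inner ℝ (u : E 3) c₁ : ℝ)) - dq a₁ b₁ κ₁ c₁ (u : E 3)) ∂(sig 3)) +
      ∫ u : Sph 3, dl F e r (u : E 3) * (4 * (qf a₂ b₂ κ₂ (u : E 3) *
        (inner ℝ (u : E 3) c₂ : ℝ)) - dq a₂ b₂ κ₂ c₂ (u : E 3)) ∂(sig 3) := by
    rw [← integral_add (hj _ _ _ _) (hj _ _ _ _)]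
    congr 1
    funext u
    ring
  rw [hsum]
  -- the inequality in the space
  have hli : ∀ (a b : E 3) (κ : ℝ) (c : E 3),
      Integrable fun z : E 3 => lineDeriv ℝ f z c * gq a b κ z := by
    intro a b κ c
    have h1 := (hf.locallyIntegrable_lineDeriv (μ := (volume : Measure (E 3)))
      c).integrable_smul_left_of_hasCompactSupport (gq_cd a b κ).continuous (cs_of _)
    refine h1.congr (Eventually.of_forall fun z => ?_)
    simp only [smul_eq_mul]
    ring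
  have hN : ∀ z : E 3, z ≠ 0 → lam * (N1 e (pt z : E 3) (qf a₁ b₁ κ₁ (pt z : E 3) • c₁ +
      qf a₂ b₂ κ₂ (pt z : E 3) • c₂) * (‖z‖ * χ (‖z‖ ^ 2))) =
      (fun u : Sph 3 => lam * N1 e (u : E 3) (qf a₁ b₁ κ₁ (u : E 3) • c₁ +
        qf a₂ b₂ κ₂ (u : E 3) • c₂)) (pt z) * (fun y : ℝ => y * χ (y ^ 2)) ‖z‖ := by
    intro z hz
    simp only
    ring
  have hNi := polar_int (fun z : E 3 => lam * (N1 e (pt z : E 3) (qf a₁ b₁ κ₁ (pt z : E 3) • c₁ +
      qf a₂ b₂ κ₂ (pt z : E 3) • c₂) * (‖z‖ * χ (‖z‖ ^ 2))))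
      (fun u : Sph 3 => lam * N1 e (u : E 3) (qf a₁ b₁ κ₁ (u : E 3) • c₁ +
        qf a₂ b₂ κ₂ (u : E 3) • c₂)) (fun y : ℝ => y * χ (y ^ 2)) hN (hint.const_mul lam) rad_int
  have hNp := polar (fun z : E 3 => lam * (N1 e (pt z : E 3) (qf a₁ b₁ κ₁ (pt z : E 3) • c₁ +
      qf a₂ b₂ κ₂ (pt z : E 3) • c₂) * (‖z‖ * χ (‖z‖ ^ 2))))
      (fun u : Sph 3 => lam * N1 e (u : E 3) (qf a₁ b₁ κ₁ (u : E 3) • c₁ +
        qf a₂ b₂ κ₂ (u : E 3) • c₂)) (fun y : ℝ => y * χ (y ^ 2)) hN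
  have hle : ∫ z : E 3, τ * (lineDeriv ℝ f z c₁ * gq a₁ b₁ κ₁ z +
      lineDeriv ℝ f z c₂ * gq a₂ b₂ κ₂ z) ≤
      ∫ z : E 3, lam * (N1 e (pt z : E 3) (qf a₁ b₁ κ₁ (pt z : E 3) • c₁ +
        qf a₂ b₂ κ₂ (pt z : E 3) • c₂) * (‖z‖ * χ (‖z‖ ^ 2))) := by
    have hadd : Integrable fun z : E 3 => τ * (lineDeriv ℝ f z c₁ * gq a₁ b₁ κ₁ z +
      lineDeriv ℝ f z c₂ * gq a₂ b₂ κ₂ z) := ((hli _ _ _ _).add (hli _ _ _ _)).const_mul τ
    apply integral_mono_ae hadd hNi
    filter_upwards [hf.ae_differentiableAt, ae_plane e he] with z hz hez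
    have hz0 : z ≠ 0 := by
      rintro rfl
      simp at hez
    have hzp : 0 < ‖z‖ := norm_pos_iff.2 hz0
    by_cases hχ : χ (‖z‖ ^ 2) = 0
    · unfold gq
      simp only [hχ, mul_zero, add_zero, le_refl]
    · have h12 := χ_ne hχ
      have h1z : 1 < ‖z‖ := by
        by_contra hcon
        push Not at hcon
        nlinarith
      -- `f = δ` near `z`
      have heq : dl F e r =ᶠ[𝓝 z] f := by
        have h1 : ∀ᶠ y : E 3 in 𝓝 z, 1 < ‖y‖ := continuous_norm.continuousAt.eventually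
          (lt_mem_nhds h1z)
        filter_upwards [h1] with y hy
        exact hfδ hy.le
      set L := fderiv ℝ f z with hL
      have hfd : HasFDerivAt f L z := hz.hasFDerivAt
      have hδd : HasFDerivAt (dl F e r) L z := hfd.congr_of_eventuallyEq heq
      set u : E 3 := (pt z : E 3) with hu
      have hu1 : ‖u‖ = 1 := norm_eq_of_mem_sphere _
      have hzu : z = ‖z‖ • u := by
        rw [hu, pt_of_ne hz0, smul_smul, mul_inv_cancel₀ hzp.ne', one_smul]
      set V : E 3 := qf a₁ b₁ κ₁ u • c₁ + qf a₂ b₂ κ₂ u • c₂ with hV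
      have heu : (inner ℝ e u : ℝ) ≠ 0 := by
        intro h0
        apply hez
        rw [hzu, real_inner_smul_right, h0, mul_zero]
      have hder : HasDerivAt (fun t : ℝ => dl F e r (u + t • V)) (‖z‖ * L V) 0 := by
        have h2 : HasDerivAt (fun t : ℝ => z + t • (‖z‖ • V)) (‖z‖ • V) 0 := by
          have := ((hasDerivAt_id (0 : ℝ)).smul_const (‖z‖ • V)).const_add z
          simpa using this
        have h3 : HasFDerivAt (dl F e r) L (z + (0 : ℝ) • (‖z‖ • V)) := by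
          rw [zero_smul, add_zero]; exact hδd
        have h4 := h3.comp_hasDerivAt (0 : ℝ) h2
        have h5 : (fun t : ℝ => dl F e r (u + t • V)) =
            (dl F e r) ∘ fun t : ℝ => z + t • (‖z‖ • V) := by
          funext t
          simp only [Function.comp]
          rw [← hhom ‖z‖ (u + t • V) hzp, smul_add, ← hzu, smul_comm]
        rw [h5]
        refine h4.congr_deriv ?_
        rw [map_smul, smul_eq_mul]
      have hpw := pointwise e he r hr0 hr1 F hF u V hu1 heu _ hder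
      have hl1 : lineDeriv ℝ f z c₁ = L c₁ := hz.lineDeriv_eq_fderiv
      have hl2 : lineDeriv ℝ f z c₂ = L c₂ := hz.lineDeriv_eq_fderiv
      have hq : ∀ (a b : E 3) (κ : ℝ), gq a b κ z = ‖z‖ ^ 2 * qf a b κ u * χ (‖z‖ ^ 2) := by
        intro a b κ
        unfold gq
        congr 1
        conv_lhs => rw [hzu]
        exact qf_hom _ _ _ _ _
      have hLV : L V = qf a₁ b₁ κ₁ u * L c₁ + qf a₂ b₂ κ₂ u * L c₂ := by
        rw [hV, map_add, map_smul, map_smul, smul_eq_mul, smul_eq_mul]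
      rw [hl1, hl2, hq, hq]
      have hχ0 : 0 ≤ ‖z‖ * χ (‖z‖ ^ 2) := mul_nonneg hzp.le (χ_nonneg _)
      calc τ * (L c₁ * (‖z‖ ^ 2 * qf a₁ b₁ κ₁ u * χ (‖z‖ ^ 2)) +
            L c₂ * (‖z‖ ^ 2 * qf a₂ b₂ κ₂ u * χ (‖z‖ ^ 2)))
          = (τ * (‖z‖ * L V)) * (‖z‖ * χ (‖z‖ ^ 2)) := by rw [hLV]; ring
        _ ≤ (lam * N1 e u V) * (‖z‖ * χ (‖z‖ ^ 2)) := mul_le_mul_of_nonneg_right hpw hχ0
        _ = _ := by ring
  rw [integral_const_mul, integral_add (hli _ _ _ _) (hli _ _ _ _), id1, id2, hNp,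
    integral_const_mul] at hle
  change _ ≤ lam * _ * KK at hle
  have hK := KK_pos
  have h9 : KK * (τ * ((∫ u : Sph 3, dl F e r (u : E 3) * (4 * (qf a₁ b₁ κ₁ (u : E 3) *
        (inner ℝ (u : E 3) c₁ : ℝ)) - dq a₁ b₁ κ₁ c₁ (u : E 3)) ∂(sig 3)) +
      ∫ u : Sph 3, dl F e r (u : E 3) * (4 * (qf a₂ b₂ κ₂ (u : E 3) *
        (inner ℝ (u : E 3) c₂ : ℝ)) - dq a₂ b₂ κ₂ c₂ (u : E 3)) ∂(sig 3))) ≤
      KK * (lam * ∫ u : Sph 3, N1 e (u : E 3) (qf a₁ b₁ κ₁ (u : E 3) • c₁ +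
        qf a₂ b₂ κ₂ (u : E 3) • c₂) ∂(sig 3)) := by
    calc _ = τ * (KK * (∫ u : Sph 3, dl F e r (u : E 3) * (4 * (qf a₁ b₁ κ₁ (u : E 3) *
        (inner ℝ (u : E 3) c₁ : ℝ)) - dq a₁ b₁ κ₁ c₁ (u : E 3)) ∂(sig 3)) +
        KK * ∫ u : Sph 3, dl F e r (u : E 3) * (4 * (qf a₂ b₂ κ₂ (u : E 3) *
        (inner ℝ (u : E 3) c₂ : ℝ)) - dq a₂ b₂ κ₂ c₂ (u : E 3)) ∂(sig 3)) := by ring
      _ ≤ _ := hle
      _ = _ := by ring
  exact le_of_mul_le_mul_left h9 hK

end Pool.Agent.L7h29.FB
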