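import Pool.Agent.L7h64.FB.Stm

/-!
# Project FB, part DIV: polar coordinates
-/

set_option autoImplicit false
set_option linter.unusedVariables false

open MeasureTheory Metric Set Filter Topology InnerProductGeometry

noncomputable section

namespace Pool.Agent.L7h29.FB

open Pool.Agent.H241R3.FV (E Sph sig)
open Pool.Agent.L7h64.FB

theorem pt_of_ne {z : E 3} (hz : z ≠ 0) : (pt z : E 3) = ‖z‖⁻¹ • z := by
  unfold pt
  rw [dif_pos hz]

theorem pt_smul {ρ : ℝ} (hρ : 0 < ρ) {z : E 3} (hz : z ≠ 0) : pt (ρ • z) = pt z := by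
  apply Subtype.ext
  rw [pt_of_ne (smul_ne_zero hρ.ne' hz), pt_of_ne hz, norm_smul, Real.norm_eq_abs,
    abs_of_pos hρ, smul_smul]
  congr 1
  field_simp

theorem pt_sph (u : Sph 3) : pt (u : E 3) = u := by
  have hu : ‖(u : E 3)‖ = 1 := norm_eq_of_mem_sphere u
  apply Subtype.ext
  rw [pt_of_ne (fun h => by rw [h, norm_zero] at hu; exact zero_ne_one hu), hu]
  simp

theorem finE : Module.finrank ℝ (E 3) = 3 := by simp [E]

/-- the integral in polar coordinates -/
theorem polar (f : E 3 → ℝ) (A : Sph 3 → ℝ) (κ : ℝ → ℝ)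
    (h : ∀ z, z ≠ 0 → f z = A (pt z) * κ ‖z‖) :
    ∫ z : E 3, f z = (∫ u : Sph 3, A u ∂(sig 3)) * ∫ y in Ioi (0 : ℝ), y ^ 2 * κ y := by
  calc ∫ z : E 3, f z
      = ∫ z : ({(0 : E 3)}ᶜ : Set (E 3)), f z.1 ∂((volume : Measure (E 3)).comap (↑)) := by
        rw [integral_subtype_comap (measurableSet_singleton _).compl f,
          restrict_compl_singleton]
    _ = ∫ p, (A p.1) * (κ (p.2 : ℝ))
          ∂((volume : Measure (E 3)).toSphere.prod
            (.volumeIoiPow (Module.finrank ℝ (E 3) - 1))) := by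
        have h1 := (volume : Measure (E 3)).measurePreserving_homeomorphUnitSphereProd.integral_comp
          (Homeomorph.measurableEmbedding _)
          (fun p : (sphere (0 : E 3) 1) × (Ioi (0 : ℝ)) => (A p.1) * (κ (p.2 : ℝ)))
        rw [← h1]
        apply integral_congr_ae
        filter_upwards with z
        have hz : (z : E 3) ≠ 0 := z.2
        rw [h _ hz]
        simp only [homeomorphUnitSphereProd_apply_snd_coe]
        congr 2
        apply Subtype.ext
        rw [pt_of_ne hz]
        simp [homeomorphUnitSphereProd_apply_fst_coe]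
    _ = (∫ u : Sph 3, A u ∂(sig 3)) *
          ∫ y : Ioi (0 : ℝ), κ (y : ℝ) ∂(.volumeIoiPow (Module.finrank ℝ (E 3) - 1)) := by
        rw [integral_prod_mul (fun x : sphere (0 : E 3) 1 => A x)
          (fun y : Ioi (0 : ℝ) => κ (y : ℝ))]
        rfl
    _ = _ := by
        congr 1
        simp only [Measure.volumeIoiPow, ENNReal.ofReal]
        rw [integral_withDensity_eq_integral_smul,
          integral_subtype_comap measurableSet_Ioi
            fun a ↦ Real.toNNReal (a ^ (Module.finrank ℝ (E 3) - 1)) • κ a,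
          setIntegral_congr_fun measurableSet_Ioi fun x hx ↦ ?_]
        · rw [NNReal.smul_def, Real.coe_toNNReal _ (pow_nonneg hx.out.le _), finE]
          rfl
        · exact (measurable_subtype_coe.pow_const _).real_toNNReal

theorem ioi_int (κ : ℝ → ℝ) (h : IntegrableOn (fun y => y ^ 2 * κ y) (Ioi 0)) :
    Integrable (fun y : Ioi (0 : ℝ) => κ (y : ℝ))
      (.volumeIoiPow (Module.finrank ℝ (E 3) - 1)) := by
  rw [Measure.volumeIoiPow, integrable_withDensity_iff_integrable_smul']
  · rw [integrableOn_iff_comap_subtypeVal (by measurability)] at h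
    refine h.congr ?_
    refine .of_forall ?_
    rintro ⟨x, hx : 0 < x⟩
    simp only [Function.comp, finE, smul_eq_mul]
    rw [ENNReal.toReal_ofReal (by positivity)]
  · fun_prop
  · simp

/-- integrability in polar coordinates -/
theorem polar_int (f : E 3 → ℝ) (A : Sph 3 → ℝ) (κ : ℝ → ℝ)
    (h : ∀ z, z ≠ 0 → f z = A (pt z) * κ ‖z‖) (hA : Integrable A (sig 3))
    (hκ : IntegrableOn (fun y => y ^ 2 * κ y) (Ioi 0)) : Integrable f := by
  rw [← restrict_compl_singleton (μ := (volume : Measure (E 3))) 0, ← IntegrableOn,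
    integrableOn_iff_comap_subtypeVal (by measurability)]
  have h1 := (volume : Measure (E 3)).measurePreserving_homeomorphUnitSphereProd.integrable_comp_emb
    (g := fun p : (sphere (0 : E 3) 1) × (Ioi (0 : ℝ)) => (A p.1) * (κ (p.2 : ℝ)))
    (Homeomorph.measurableEmbedding _)
  have h2 := h1.2 (Integrable.mul_prod (f := fun u : sphere (0 : E 3) 1 => A u)
    (g := fun y : Ioi (0 : ℝ) => κ (y : ℝ)) hA (ioi_int κ hκ))
  refine h2.congr ?_
  filter_upwards with z
  have hz : (z : E 3) ≠ 0 := z.2
  simp only [Function.comp]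
  rw [h _ hz]
  simp only [homeomorphUnitSphereProd_apply_snd_coe]
  congr 2
  apply Subtype.ext
  rw [pt_of_ne hz]
  simp [homeomorphUnitSphereProd_apply_fst_coe]

end Pool.Agent.L7h29.FB
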