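import Pool.Agent.L7h29.FB.Pw
import Pool.Agent.L7h29.FB.Pol

/-!
# Project FB, part DIV: Lipschitz continuity
-/

set_option autoImplicit false
set_option linter.unusedVariables false

open MeasureTheory Metric Set Filter Topology InnerProductGeometry

noncomputable section

namespace Pool.Agent.L7h29.FB

open Pool.Agent.H241R3.FV (E Sph sig)
open Pool.Agent.L7h64.FB

/-- the angle of unit vectors and their distance -/
theorem angle_le_dist (x y : E 3) (hx : ‖x‖ = 1) (hy : ‖y‖ = 1) :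
    angle x y ≤ Real.pi / 2 * ‖x - y‖ := by
  set θ := angle x y with hθ
  have h0 : 0 ≤ θ := angle_nonneg _ _
  have h1 : θ ≤ Real.pi := angle_le_pi _ _
  have h2 : ‖x - y‖ ^ 2 = 2 - 2 * Real.cos θ := by
    have hc := cos_angle_mul_norm_mul_norm (x := x) (y := y)
    rw [hx, hy, ← hθ] at hc
    rw [norm_sub_sq_real, hx, hy, ← hc]
    ring
  have h3 : 2 - 2 * Real.cos θ = (2 * Real.sin (θ / 2)) ^ 2 := by
    have h4 := Real.cos_two_mul (θ / 2)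
    have h5 := Real.sin_sq_add_cos_sq (θ / 2)
    rw [show 2 * (θ / 2) = θ by ring] at h4
    rw [h4]
    linear_combination (-4) * h5
  have h4 : 0 ≤ Real.sin (θ / 2) :=
    Real.sin_nonneg_of_nonneg_of_le_pi (by linarith) (by linarith)
  have h5 : ‖x - y‖ = 2 * Real.sin (θ / 2) := by
    rw [h3] at h2
    exact (pow_left_inj₀ (norm_nonneg _) (by positivity) (by norm_num)).1 h2
  have h6 := Real.mul_le_sin (x := θ / 2) (by linarith) (by linarith)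
  rw [h5]
  have h7 : Real.pi / 2 * (2 * (2 / Real.pi * (θ / 2))) = θ := by
    have := Real.pi_ne_zero
    field_simp
  calc θ = Real.pi / 2 * (2 * (2 / Real.pi * (θ / 2))) := h7.symm
    _ ≤ _ := by gcongr

/-- normalization is Lipschitz outside of the unit ball -/
theorem norm_unit_sub (x y : E 3) (hx : 1 ≤ ‖x‖) (hy : 0 < ‖y‖) :
    ‖‖x‖⁻¹ • x - ‖y‖⁻¹ • y‖ ≤ 2 * ‖x - y‖ := by
  have hx0 : 0 < ‖x‖ := by linarith
  have h1 : ‖x‖⁻¹ • x - ‖y‖⁻¹ • y = ‖x‖⁻¹ • (x - y) + (‖x‖⁻¹ - ‖y‖⁻¹) • y := by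
    rw [smul_sub, sub_smul]; abel
  rw [h1]
  refine (norm_add_le _ _).trans ?_
  rw [norm_smul, norm_smul, norm_inv, norm_norm, Real.norm_eq_abs]
  have h2 : |‖x‖⁻¹ - ‖y‖⁻¹| * ‖y‖ = ‖x‖⁻¹ * |‖y‖ - ‖x‖| := by
    have h3 : ‖x‖⁻¹ - ‖y‖⁻¹ = (‖x‖⁻¹ * (‖y‖ - ‖x‖)) / ‖y‖ := by
      field_simp
    rw [h3, abs_div, abs_mul, abs_of_pos (inv_pos.2 hx0), abs_of_pos hy]
    field_simp
  rw [h2]
  have h4 : |‖y‖ - ‖x‖| ≤ ‖x - y‖ := by
    rw [abs_sub_comm]; exact abs_norm_sub_norm_le x y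
  have h5 : ‖x‖⁻¹ ≤ 1 := inv_le_one_of_one_le₀ hx
  have h6 : 0 ≤ ‖x‖⁻¹ := (inv_pos.2 hx0).le
  have h7 := norm_nonneg (x - y)
  have h8 : ‖x‖⁻¹ * ‖x - y‖ ≤ 1 * ‖x - y‖ := mul_le_mul_of_nonneg_right h5 h7
  have h9 : ‖x‖⁻¹ * |‖y‖ - ‖x‖| ≤ 1 * ‖x - y‖ := mul_le_mul h5 h4 (abs_nonneg _) (by norm_num)
  linarith

theorem arctan_lip (x y : ℝ) : |Real.arctan x - Real.arctan y| ≤ |x - y| := by
  have h : LipschitzWith 1 Real.arctan := by
    apply lipschitzWith_of_nnnorm_deriv_le Real.differentiable_arctan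
    intro x
    rw [Real.deriv_arctan, ← NNReal.coe_le_coe, coe_nnnorm, Real.norm_eq_abs,
      abs_of_nonneg (by positivity)]
    rw [NNReal.coe_one, div_le_one (by positivity)]
    nlinarith [sq_nonneg x]
  have h1 := h.dist_le_mul x y
  rwa [Real.dist_eq, Real.dist_eq, NNReal.coe_one, one_mul] at h1

theorem dl_lip (F : Sph 3 → ℝ) (hF : Lip1 F) (e : E 3) (he : ‖e‖ = 1) (r : ℝ) (hr0 : 0 ≤ r)
    (hr1 : r < 1) : ∃ C : NNReal, LipschitzOnWith C (dl F e r) {z | 1 ≤ ‖z‖} := by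
  set τ := r / √(1 - r ^ 2) with hτ
  set κ := 1 / √(1 - r ^ 2) - 1 with hκ
  have hτ0 : 0 ≤ τ := div_nonneg hr0 (Real.sqrt_nonneg _)
  refine ⟨⟨Real.pi * (1 + |κ|) + 2 * τ, by positivity⟩, ?_⟩
  apply LipschitzOnWith.of_dist_le_mul
  intro a ha b hb
  have ha' : 1 ≤ ‖a‖ := ha
  have hb' : 1 ≤ ‖b‖ := hb
  have hga : 1 ≤ ‖Gi e r a‖ := ha'.trans (norm_Gi_ge e he r hr0 hr1 a)
  have hgb : 1 ≤ ‖Gi e r b‖ := hb'.trans (norm_Gi_ge e he r hr0 hr1 b)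
  have hga0 : Gi e r a ≠ 0 := norm_pos_iff.1 (by linarith)
  have hgb0 : Gi e r b ≠ 0 := norm_pos_iff.1 (by linarith)
  have h1 : |F (pt (Gi e r a)) - F (pt (Gi e r b))| ≤ Real.pi * (1 + |κ|) * ‖a - b‖ := by
    refine (hF _ _).trans ?_
    have h2 := angle_le_dist (pt (Gi e r a) : E 3) (pt (Gi e r b) : E 3)
      (norm_eq_of_mem_sphere _) (norm_eq_of_mem_sphere _)
    refine h2.trans ?_
    rw [pt_of_ne hga0, pt_of_ne hgb0]
    have h3 := norm_unit_sub (Gi e r a) (Gi e r b) hga (by linarith)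
    have h4 : Gi e r a - Gi e r b = (a - b) + (κ * (inner ℝ e (a - b) : ℝ)) • e := by
      unfold Gi
      rw [inner_sub_right, mul_sub, sub_smul]
      abel
    have h5 : ‖Gi e r a - Gi e r b‖ ≤ (1 + |κ|) * ‖a - b‖ := by
      rw [h4]
      refine (norm_add_le _ _).trans ?_
      rw [norm_smul, he, mul_one, Real.norm_eq_abs, abs_mul]
      have h6 := abs_real_inner_le_norm e (a - b)
      rw [he, one_mul] at h6
      have h7 := mul_le_mul_of_nonneg_left h6 (abs_nonneg κ)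
      linarith
    calc Real.pi / 2 * ‖‖Gi e r a‖⁻¹ • Gi e r a - ‖Gi e r b‖⁻¹ • Gi e r b‖
        ≤ Real.pi / 2 * (2 * ((1 + |κ|) * ‖a - b‖)) := by
          have := Real.pi_pos
          gcongr
          exact h3.trans (by gcongr)
      _ = _ := by ring
  have h8 : |Real.arctan (τ * ((inner ℝ e a : ℝ) / ‖a‖)) -
      Real.arctan (τ * ((inner ℝ e b : ℝ) / ‖b‖))| ≤ 2 * τ * ‖a - b‖ := by
    refine (arctan_lip _ _).trans ?_
    have h9 : τ * ((inner ℝ e a : ℝ) / ‖a‖) - τ * ((inner ℝ e b : ℝ) / ‖b‖) =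
        τ * inner ℝ e (‖a‖⁻¹ • a - ‖b‖⁻¹ • b) := by
      rw [inner_sub_right, real_inner_smul_right, real_inner_smul_right]
      ring
    rw [h9, abs_mul, abs_of_nonneg hτ0]
    have h10 := abs_real_inner_le_norm e (‖a‖⁻¹ • a - ‖b‖⁻¹ • b)
    rw [he, one_mul] at h10
    have h11 := norm_unit_sub a b ha' (by linarith)
    calc τ * |(inner ℝ e (‖a‖⁻¹ • a - ‖b‖⁻¹ • b) : ℝ)| ≤ τ * (2 * ‖a - b‖) := by
          gcongr
          exact h10.trans h11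
      _ = _ := by ring
  rw [Real.dist_eq, dist_eq_norm]
  have h12 : dl F e r a - dl F e r b = (F (pt (Gi e r a)) - F (pt (Gi e r b))) -
      (Real.arctan (τ * ((inner ℝ e a : ℝ) / ‖a‖)) -
        Real.arctan (τ * ((inner ℝ e b : ℝ) / ‖b‖))) := by
    unfold dl
    ring
  rw [h12]
  refine (abs_sub _ _).trans ?_
  show _ ≤ (Real.pi * (1 + |κ|) + 2 * τ) * ‖a - b‖
  linarith

theorem dl_hom (F : Sph 3 → ℝ) (e : E 3) (he : ‖e‖ = 1) (r : ℝ) (hr0 : 0 ≤ r)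
    (hr1 : r < 1) {ρ : ℝ} (hρ : 0 < ρ) (z : E 3) : dl F e r (ρ • z) = dl F e r z := by
  rcases eq_or_ne z 0 with rfl | hz
  · rw [smul_zero]
  · have hz' : 0 < ‖z‖ := norm_pos_iff.2 hz
    have hG : Gi e r z ≠ 0 := norm_pos_iff.1 (lt_of_lt_of_le hz' (norm_Gi_ge e he r hr0 hr1 z))
    unfold dl
    rw [Gi_smul, pt_smul hρ hG, real_inner_smul_right, norm_smul, Real.norm_eq_abs, abs_of_pos hρ]
    congr 3
    field_simp

end Pool.Agent.L7h29.FB
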