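import Pool.Agent.L7h64.FB.Stm

/-!
# Project FB, part DIV: the pointwise inequality
-/

set_option autoImplicit false
set_option linter.unusedVariables false

open MeasureTheory Metric Set Filter Topology InnerProductGeometry

noncomputable section

namespace Pool.Agent.L7h29.FB

open Pool.Agent.H241R3.FV (E Sph sig)
open Pool.Agent.L7h64.FB

/-- the map `Γ⁻¹` and the inner product -/
theorem inner_Gi (e : E 3) (he : ‖e‖ = 1) (r : ℝ) (hr0 : 0 ≤ r) (hr1 : r < 1) (z w : E 3) :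
    (inner ℝ (Gi e r z) (Gi e r w) : ℝ) = inner ℝ z w +
      (r / √(1 - r ^ 2)) ^ 2 * ((inner ℝ e z : ℝ) * inner ℝ e w) := by
  have hh : 0 < 1 - r ^ 2 := by nlinarith
  have hs : 0 < √(1 - r ^ 2) := Real.sqrt_pos.2 hh
  have hs2 : √(1 - r ^ 2) ^ 2 = 1 - r ^ 2 := Real.sq_sqrt hh.le
  have hee : (inner ℝ e e : ℝ) = 1 := by rw [real_inner_self_eq_norm_sq, he]; norm_num
  unfold Gi
  simp only [inner_add_left, inner_add_right, real_inner_smul_left, real_inner_smul_right, hee]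
  rw [real_inner_comm z e]
  set s := √(1 - r ^ 2) with hsd
  have hr : (r / s) ^ 2 = 1 / s ^ 2 - 1 := by
    rw [div_pow]
    have : r ^ 2 = 1 - s ^ 2 := by linarith
    rw [this]
    field_simp
  rw [hr]
  field_simp
  ring

theorem Gi_add (e : E 3) (r : ℝ) (z w : E 3) : Gi e r (z + w) = Gi e r z + Gi e r w := by
  unfold Gi
  rw [inner_add_right, mul_add, add_smul]
  abel

theorem Gi_smul (e : E 3) (r t : ℝ) (z : E 3) : Gi e r (t • z) = t • Gi e r z := by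
  unfold Gi
  rw [real_inner_smul_right, smul_add, smul_smul]
  congr 2
  ring

theorem norm_Gi_ge (e : E 3) (he : ‖e‖ = 1) (r : ℝ) (hr0 : 0 ≤ r) (hr1 : r < 1) (z : E 3) :
    ‖z‖ ≤ ‖Gi e r z‖ := by
  have h := inner_Gi e he r hr0 hr1 z z
  rw [real_inner_self_eq_norm_sq, real_inner_self_eq_norm_sq] at h
  have h2 : 0 ≤ (r / √(1 - r ^ 2)) ^ 2 * ((inner ℝ e z : ℝ) * inner ℝ e z) :=
    mul_nonneg (sq_nonneg _) (mul_self_nonneg _)
  have h3 : ‖z‖ ^ 2 ≤ ‖Gi e r z‖ ^ 2 := by linarith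
  exact (abs_le_of_sq_le_sq' h3 (norm_nonneg _)).2

/-- the angle of two nearby vectors -/
theorem angle_le (p q : E 3) (h : 0 < (inner ℝ p q : ℝ)) :
    angle p q ≤ √(‖p‖ ^ 2 * ‖q‖ ^ 2 - (inner ℝ p q : ℝ) ^ 2) / inner ℝ p q := by
  have hp : 0 < ‖p‖ := by
    rw [norm_pos_iff]; rintro rfl; simp at h
  have hq : 0 < ‖q‖ := by
    rw [norm_pos_iff]; rintro rfl; simp at h
  have hc := cos_angle_mul_norm_mul_norm (x := p) (y := q)
  have hs := sin_angle_mul_norm_mul_norm p q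
  have hcos : 0 < Real.cos (angle p q) := by
    by_contra hcon
    push Not at hcon
    have : Real.cos (angle p q) * (‖p‖ * ‖q‖) ≤ 0 :=
      mul_nonpos_of_nonpos_of_nonneg hcon (by positivity)
    linarith
  have hlt : angle p q < Real.pi / 2 := by
    by_contra hcon
    push Not at hcon
    have := Real.cos_nonpos_of_pi_div_two_le_of_le hcon (by linarith [angle_le_pi p q,
      Real.pi_pos])
    linarith
  have h1 := Real.le_tan (angle_nonneg p q) hlt
  refine h1.trans (le_of_eq ?_)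
  rw [Real.tan_eq_sin_div_cos, real_inner_self_eq_norm_sq, real_inner_self_eq_norm_sq] at *
  rw [← hc, sq (Real.cos (angle p q) * (‖p‖ * ‖q‖)), hc, ← hs, ← hc]
  field_simp

/-- the algebraic inequality -/
theorem alg_ineq (r w c Ee : ℝ) (hr0 : 0 ≤ r) (hr1 : r < 1) (hw : 0 ≤ w) (hc : c ≠ 0)
    (hE : Ee ^ 2 ≤ (1 - c ^ 2) * w ^ 2) :
    (r / √(1 - r ^ 2)) * ((√((1 + (r / √(1 - r ^ 2)) ^ 2 * c ^ 2) * w ^ 2 +
      (r / √(1 - r ^ 2)) ^ 2 * Ee ^ 2) - (r / √(1 - r ^ 2)) * Ee) /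
        (1 + (r / √(1 - r ^ 2)) ^ 2 * c ^ 2)) ≤
    2 * r / (1 + r) * ((√(c ^ 2 * w ^ 2 + Ee ^ 2) - Ee) / c ^ 2) := by
  have hh : 0 < 1 - r ^ 2 := by nlinarith
  have hs : 0 < √(1 - r ^ 2) := Real.sqrt_pos.2 hh
  have hs2 : √(1 - r ^ 2) ^ 2 = 1 - r ^ 2 := Real.sq_sqrt hh.le
  set h := √(1 - r ^ 2) with hhd
  set τ := r / h with hτ
  have hτ0 : 0 ≤ τ := div_nonneg hr0 hs.le
  have hτh : τ * h = r := by rw [hτ]; field_simp
  have hc2 : 0 < c ^ 2 := by positivity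
  rcases eq_or_lt_of_le hw with hw0 | hw0
  · -- `w = 0`
    subst hw0
    have hE0 : Ee = 0 := by nlinarith
    subst hE0
    simp
  set A := √(c ^ 2 * w ^ 2 + Ee ^ 2) with hA
  set B := √((1 + τ ^ 2 * c ^ 2) * w ^ 2 + τ ^ 2 * Ee ^ 2) with hB
  have hA2 : A ^ 2 = c ^ 2 * w ^ 2 + Ee ^ 2 := Real.sq_sqrt (by positivity)
  have hB2 : B ^ 2 = (1 + τ ^ 2 * c ^ 2) * w ^ 2 + τ ^ 2 * Ee ^ 2 := Real.sq_sqrt (by positivity)
  have hA0 : 0 ≤ A := Real.sqrt_nonneg _
  have hB0 : 0 ≤ B := Real.sqrt_nonneg _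
  have hAE : |Ee| < A := by
    apply abs_lt_of_sq_lt_sq _ hA0
    rw [hA2]
    have : 0 < c ^ 2 * w ^ 2 := by positivity
    linarith
  have hBE : |τ * Ee| < B := by
    apply abs_lt_of_sq_lt_sq _ hB0
    rw [hB2]
    have : 0 < (1 + τ ^ 2 * c ^ 2) * w ^ 2 := by positivity
    nlinarith
  have hAE' := abs_lt.1 hAE
  have hBE' := abs_lt.1 hBE
  have e1 : (B - τ * Ee) / (1 + τ ^ 2 * c ^ 2) = w ^ 2 / (B + τ * Ee) := by
    rw [div_eq_div_iff (by positivity) (by linarith)]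
    linear_combination hB2
  have e2 : (A - Ee) / c ^ 2 = w ^ 2 / (A + Ee) := by
    rw [div_eq_div_iff (by positivity) (by linarith)]
    linear_combination hA2
  rw [e1, e2]
  -- `τ A ≤ r B`
  have k1 : A ^ 2 ≤ h ^ 2 * B ^ 2 := by
    have e3 : h ^ 2 * B ^ 2 = h ^ 2 * w ^ 2 + (τ * h) ^ 2 * (c ^ 2 * w ^ 2 + Ee ^ 2) := by
      rw [hB2]; ring
    rw [e3, hτh, ← hA2, hs2]
    have e4 : A ^ 2 ≤ w ^ 2 := by rw [hA2]; linarith
    nlinarith
  have k2 : A ≤ h * B := by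
    apply le_of_sq_le_sq _ (by positivity)
    rw [mul_pow]; exact k1
  have k3 : τ * A ≤ r * B := by
    calc τ * A ≤ τ * (h * B) := mul_le_mul_of_nonneg_left k2 hτ0
      _ = r * B := by rw [← mul_assoc, hτh]
  have hr1' : 0 < 1 + r := by linarith
  have k4 : τ * (A + Ee) ≤ 2 * r / (1 + r) * (B + τ * Ee) := by
    have k5 : (1 - r) * (τ * Ee) ≤ (1 - r) * (τ * A) :=
      mul_le_mul_of_nonneg_left (mul_le_mul_of_nonneg_left hAE'.2.le hτ0) (by linarith)
    have k7 : 2 * r / (1 + r) * (B + τ * Ee) = (2 * r * (B + τ * Ee)) / (1 + r) := by ring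
    rw [k7, le_div_iff₀ hr1']
    nlinarith
  have hAp : 0 < A + Ee := by linarith
  have hBp : 0 < B + τ * Ee := by linarith
  have k6 : τ / (B + τ * Ee) ≤ 2 * r / (1 + r) / (A + Ee) := by
    rw [div_le_div_iff₀ hBp hAp]
    exact k4
  calc τ * (w ^ 2 / (B + τ * Ee)) = w ^ 2 * (τ / (B + τ * Ee)) := by ring
    _ ≤ w ^ 2 * (2 * r / (1 + r) / (A + Ee)) := mul_le_mul_of_nonneg_left k6 (by positivity)
    _ = _ := by ring

/-- the derivative of `⟨e, z⟩ / ‖z‖` -/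
theorem der_cos (e u V : E 3) (hu : ‖u‖ = 1) :
    HasDerivAt (fun t : ℝ => (inner ℝ e (u + t • V) : ℝ) / ‖u + t • V‖)
      (inner ℝ e (tg u V)) 0 := by
  have h1 : HasDerivAt (fun t : ℝ => u + t • V) V 0 := by
    have := ((hasDerivAt_id (0 : ℝ)).smul_const V).const_add u
    simpa using this
  have h2 : HasDerivAt (fun t : ℝ => (inner ℝ e (u + t • V) : ℝ)) (inner ℝ e V) 0 := by
    have := (hasDerivAt_const (0 : ℝ) e).inner ℝ h1
    simpa using this
  have h3 : HasDerivAt (fun t : ℝ => ‖u + t • V‖ ^ 2) (2 * inner ℝ u V) 0 := by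
    have := h1.norm_sq
    simpa using this
  have h4 : HasDerivAt (fun t : ℝ => √(‖u + t • V‖ ^ 2)) (inner ℝ u V) 0 := by
    have := h3.sqrt (by simp [hu])
    simpa [hu] using this
  have h5 : HasDerivAt (fun t : ℝ => ‖u + t • V‖) (inner ℝ u V) 0 := by
    refine h4.congr_of_eventuallyEq (Eventually.of_forall fun t => ?_)
    simp only
    rw [Real.sqrt_sq (norm_nonneg _)]
  have h6 := h2.div h5 (by simp [hu])
  refine h6.congr_deriv ?_
  simp only [zero_smul, add_zero, hu, tg, inner_sub_right, real_inner_smul_right]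
  ring

/-- the pointwise inequality at the unit vector `u` -/
theorem pointwise (e : E 3) (he : ‖e‖ = 1) (r : ℝ) (hr0 : 0 ≤ r) (hr1 : r < 1)
    (F : Sph 3 → ℝ) (hF : Lip1 F) (u V : E 3) (hu : ‖u‖ = 1) (hc : (inner ℝ e u : ℝ) ≠ 0) (d : ℝ)
    (hd : HasDerivAt (fun t : ℝ => dl F e r (u + t • V)) d 0) :
    r / √(1 - r ^ 2) * d ≤ 2 * r / (1 + r) * N1 e u V := by
  have hh : 0 < 1 - r ^ 2 := by nlinarith
  have hs : 0 < √(1 - r ^ 2) := Real.sqrt_pos.2 hh
  set τ := r / √(1 - r ^ 2) with hτ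
  have hτ0 : 0 ≤ τ := div_nonneg hr0 hs.le
  set c : ℝ := inner ℝ e u with hcd
  set W := tg u V with hW
  set Ee : ℝ := inner ℝ e W with hEe
  set w := ‖W‖ with hw
  have huu : (inner ℝ u u : ℝ) = 1 := by rw [real_inner_self_eq_norm_sq, hu]; norm_num
  have hee : (inner ℝ e e : ℝ) = 1 := by rw [real_inner_self_eq_norm_sq, he]; norm_num
  have huW : (inner ℝ u W : ℝ) = 0 := by
    rw [hW, tg, inner_sub_right, real_inner_smul_right, huu]; ring
  set k : ℝ := inner ℝ u V with hk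
  have hV : V = W + k • u := by rw [hW, tg, sub_add_cancel]
  have hEV : (inner ℝ e V : ℝ) = Ee + k * c := by
    rw [hV, inner_add_right, real_inner_smul_right]
  have hVV : ‖V‖ ^ 2 = w ^ 2 + k ^ 2 := by
    rw [← real_inner_self_eq_norm_sq, hV]
    simp only [inner_add_left, inner_add_right, real_inner_smul_left, real_inner_smul_right, huu,
      huW]
    rw [real_inner_comm u W, huW, real_inner_self_eq_norm_sq]
    ring
  have hE2 : Ee ^ 2 ≤ (1 - c ^ 2) * w ^ 2 := by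
    have h1 : Ee = inner ℝ (e - c • u) W := by
      rw [inner_sub_left, real_inner_smul_left, huW]; ring
    have h2 : ‖e - c • u‖ ^ 2 = 1 - c ^ 2 := by
      rw [← real_inner_self_eq_norm_sq]
      simp only [inner_sub_left, inner_sub_right, real_inner_smul_left, real_inner_smul_right,
        huu, hee]
      rw [real_inner_comm e u, ← hcd]
      ring
    have h3 := abs_real_inner_le_norm (e - c • u) W
    rw [← h1] at h3
    have h4 : Ee ^ 2 ≤ (‖e - c • u‖ * ‖W‖) ^ 2 := by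
      rw [← sq_abs Ee]
      exact pow_le_pow_left₀ (abs_nonneg _) h3 2
    rw [mul_pow, h2] at h4
    exact h4
  -- the two vectors
  set p := Gi e r u with hp
  set q := Gi e r V with hq
  have hpp : ‖p‖ ^ 2 = 1 + τ ^ 2 * c ^ 2 := by
    rw [← real_inner_self_eq_norm_sq, hp, inner_Gi e he r hr0 hr1, huu, ← hcd]
    ring
  have hpq : (inner ℝ p q : ℝ) = k + τ ^ 2 * (c * (Ee + k * c)) := by
    rw [hp, hq, inner_Gi e he r hr0 hr1, hEV]
  have hqq : ‖q‖ ^ 2 = w ^ 2 + k ^ 2 + τ ^ 2 * (Ee + k * c) ^ 2 := by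
    rw [← real_inner_self_eq_norm_sq, hq, inner_Gi e he r hr0 hr1, hEV,
      real_inner_self_eq_norm_sq, hVV]
    ring
  have hwedge : ‖p‖ ^ 2 * ‖q‖ ^ 2 - (inner ℝ p q : ℝ) ^ 2 =
      (1 + τ ^ 2 * c ^ 2) * w ^ 2 + τ ^ 2 * Ee ^ 2 := by
    rw [hpp, hqq, hpq]; ring
  have hpp0 : 0 < 1 + τ ^ 2 * c ^ 2 := by positivity
  -- the difference quotient
  have hGi : ∀ t : ℝ, Gi e r (u + t • V) = p + t • q := fun t => by
    rw [Gi_add, Gi_smul]
  set Bq := √((1 + τ ^ 2 * c ^ 2) * w ^ 2 + τ ^ 2 * Ee ^ 2) with hBq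
  have hinn : ∀ t : ℝ, (inner ℝ p (p + t • q) : ℝ) = ‖p‖ ^ 2 + t * inner ℝ p q := fun t => by
    rw [inner_add_right, real_inner_smul_right, real_inner_self_eq_norm_sq]
  have hbd : ∀ᶠ t : ℝ in 𝓝[>] 0, t⁻¹ * (dl F e r (u + t • V) - dl F e r u) ≤
      Bq / (‖p‖ ^ 2 + t * inner ℝ p q) -
        t⁻¹ * (Real.arctan (τ * ((inner ℝ e (u + t • V) : ℝ) / ‖u + t • V‖)) -
          Real.arctan (τ * ((inner ℝ e u : ℝ) / ‖u‖))) := by
    have h1 : ∀ᶠ t : ℝ in 𝓝 0, 0 < ‖p‖ ^ 2 + t * (inner ℝ p q : ℝ) := by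
      have hcont : Continuous fun t : ℝ => ‖p‖ ^ 2 + t * (inner ℝ p q : ℝ) := by fun_prop
      apply hcont.continuousAt.eventually
      apply lt_mem_nhds
      simp only [zero_mul, add_zero, hpp]
      exact hpp0
    filter_upwards [nhdsWithin_le_nhds h1, self_mem_nhdsWithin] with t ht ht0
    have ht0' : (0 : ℝ) < t := ht0
    have hang : F (pt (p + t • q)) - F (pt p) ≤ t * (Bq / (‖p‖ ^ 2 + t * inner ℝ p q)) := by
      have hp0 : p ≠ 0 := by
        intro h0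
        rw [h0, norm_zero] at hpp
        linarith
      have hpt0 : p + t • q ≠ 0 := by
        intro h0
        have := hinn t
        rw [h0, inner_zero_right] at this
        linarith
      have h2 := (le_abs_self _).trans (hF (pt (p + t • q)) (pt p))
      have h3 : ((pt (p + t • q) : Sph 3) : E 3) = ‖p + t • q‖⁻¹ • (p + t • q) := by
        unfold pt; rw [dif_pos hpt0]
      have h4 : ((pt p : Sph 3) : E 3) = ‖p‖⁻¹ • p := by
        unfold pt; rw [dif_pos hp0]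
      rw [h3, h4, angle_smul_left_of_pos _ _ (inv_pos.2 (norm_pos_iff.2 hpt0)),
        angle_smul_right_of_pos _ _ (inv_pos.2 (norm_pos_iff.2 hp0)), angle_comm] at h2
      have h5 := angle_le p (p + t • q) (by rw [hinn]; exact ht)
      refine h2.trans (h5.trans (le_of_eq ?_))
      rw [hinn]
      have h6 : ‖p‖ ^ 2 * ‖p + t • q‖ ^ 2 - (‖p‖ ^ 2 + t * inner ℝ p q) ^ 2 =
          t ^ 2 * ((1 + τ ^ 2 * c ^ 2) * w ^ 2 + τ ^ 2 * Ee ^ 2) := by
        rw [← hwedge]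
        have h7 : ‖p + t • q‖ ^ 2 = ‖p‖ ^ 2 + 2 * t * inner ℝ p q + t ^ 2 * ‖q‖ ^ 2 := by
          rw [norm_add_sq_real, norm_smul, real_inner_smul_right, mul_pow, Real.norm_eq_abs,
            sq_abs]
          ring
        rw [h7]
        ring
      rw [h6, Real.sqrt_mul (sq_nonneg t), Real.sqrt_sq ht0'.le, ← hBq]
      ring
    have h8 : dl F e r (u + t • V) - dl F e r u = (F (pt (p + t • q)) - F (pt p)) -
        (Real.arctan (τ * ((inner ℝ e (u + t • V) : ℝ) / ‖u + t • V‖)) -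
          Real.arctan (τ * ((inner ℝ e u : ℝ) / ‖u‖))) := by
      unfold dl
      rw [hGi]
      ring
    rw [h8, mul_sub]
    apply sub_le_sub_right
    rw [inv_mul_le_iff₀ ht0']
    exact hang
  have hlim1 : Tendsto (fun t : ℝ => t⁻¹ * (dl F e r (u + t • V) - dl F e r u)) (𝓝[>] 0)
      (𝓝 d) := by
    have h1 := hasDerivAt_iff_tendsto_slope_zero.1 hd
    simp only [zero_add, zero_smul, add_zero, smul_eq_mul] at h1
    exact h1.mono_left (nhdsWithin_mono _ (fun x hx => ne_of_gt hx))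
  have hlim2 : Tendsto (fun t : ℝ => t⁻¹ *
      (Real.arctan (τ * ((inner ℝ e (u + t • V) : ℝ) / ‖u + t • V‖)) -
          Real.arctan (τ * ((inner ℝ e u : ℝ) / ‖u‖)))) (𝓝[>] 0)
      (𝓝 (τ * Ee / (1 + τ ^ 2 * c ^ 2))) := by
    have h2 := ((der_cos e u V hu).const_mul τ).arctan
    have h1 := hasDerivAt_iff_tendsto_slope_zero.1 h2
    simp only [zero_add, zero_smul, add_zero, smul_eq_mul] at h1
    have h3 := h1.mono_left (nhdsWithin_mono (0 : ℝ) (fun x hx => ne_of_gt hx : Ioi (0 : ℝ) ⊆ {0}ᶜ))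
    convert h3 using 2
    rw [hu, ← hcd, ← hW, ← hEe]
    field_simp
  have hlim3 : Tendsto (fun t : ℝ => Bq / (‖p‖ ^ 2 + t * inner ℝ p q)) (𝓝[>] 0)
      (𝓝 (Bq / (1 + τ ^ 2 * c ^ 2))) := by
    have hcont : ContinuousAt (fun t : ℝ => Bq / (‖p‖ ^ 2 + t * (inner ℝ p q : ℝ))) 0 := by
      apply ContinuousAt.div (by fun_prop) (by fun_prop)
      rw [zero_mul, add_zero, hpp]
      exact hpp0.ne'
    have h1 := hcont.tendsto
    simp only [zero_mul, add_zero, hpp] at h1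
    rw [hpp]
    exact h1.mono_left nhdsWithin_le_nhds
  have hfin := le_of_tendsto_of_tendsto hlim1 (hlim3.sub hlim2) hbd
  have h9 : d ≤ (Bq - τ * Ee) / (1 + τ ^ 2 * c ^ 2) := by
    rw [sub_div]; exact hfin
  have h10 := alg_ineq r w c Ee hr0 hr1 (norm_nonneg _) hc hE2
  refine (mul_le_mul_of_nonneg_left h9 hτ0).trans (h10.trans (le_of_eq ?_))
  unfold N1
  rfl

end Pool.Agent.L7h29.FB
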