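import Pool.Agent.L7h64.FB.Stm

/-!
# Project FB, part W: the trigonometric integral
-/

set_option autoImplicit false
set_option linter.unusedVariables false

open MeasureTheory Metric Set Filter Topology

noncomputable section

namespace Pool.Agent.L7h29.FB.W

open Pool.Agent.L7h64.FB

/-- the first primitive -/
def Kp (a b C S β L R : ℝ) : ℝ :=
  (2 / 3 * (4 * a ^ 3 - 3 * a)) * C ^ 3 - (4 * a ^ 3 - 3 * a) * C ^ 2 - (4 * b ^ 2 * a) * C +
    (4 * b ^ 2 * a) * L -
    b * ((2 * b ^ 2 - 6 * a ^ 2) * (S - S ^ 3 / 3 - (β + S * C) / 2) + S - β + b ^ 2 * R)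

/-- the second primitive -/
def Km (a b C S β L R : ℝ) : ℝ :=
  (-(2 / 3 * (4 * a ^ 3 - 3 * a))) * C ^ 3 - (4 * a ^ 3 - 3 * a) * C ^ 2 + (4 * b ^ 2 * a) * C +
    (4 * b ^ 2 * a) * L -
    b * ((-(2 * b ^ 2 - 6 * a ^ 2)) * (S - S ^ 3 / 3 + (β + S * C) / 2) - S - β - b ^ 2 * R)

/-- the first primitive as a function of the angle -/
def Kpf (χ β : ℝ) : ℝ := Kp (Real.cos χ) (Real.sin χ) (Real.cos β) (Real.sin β) β
      (Real.log (1 + Real.cos β)) (Real.sin β / (1 + Real.cos β))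

/-- the second primitive as a function of the angle -/
def Kmf (χ β : ℝ) : ℝ := Km (Real.cos χ) (Real.sin χ) (Real.cos β) (Real.sin β) β
      (Real.log (1 - Real.cos β)) (Real.sin β / (1 - Real.cos β))

theorem der_p (χ β : ℝ) (h : 1 + Real.cos β ≠ 0) :
    HasDerivAt (Kpf χ)
      (Real.sin (2 * β - χ) * Real.sin (β - χ) ^ 2 / (1 + Real.cos β)) β := by
  have hC := Real.hasDerivAt_cos β
  have hS := Real.hasDerivAt_sin β
  have hD : HasDerivAt (fun β => 1 + Real.cos β) (-Real.sin β) β := hC.const_add 1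
  have hL : HasDerivAt (fun β => Real.log (1 + Real.cos β)) (-Real.sin β / (1 + Real.cos β)) β :=
    hD.log h
  have hR := hS.div hD h
  have hi := hasDerivAt_id β
  set a := Real.cos χ with ha
  set b := Real.sin χ with hb
  have hab : b ^ 2 + a ^ 2 - 1 = 0 := by rw [ha, hb]; linarith [Real.sin_sq_add_cos_sq χ]
  have hSC : Real.sin β ^ 2 + Real.cos β ^ 2 - 1 = 0 := by linarith [Real.sin_sq_add_cos_sq β]
  have i1 := (hS.sub ((hS.pow 3).div_const 3)).sub ((hi.add (hS.mul hC)).div_const 2)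
  have i2 := (((i1.const_mul (2 * b ^ 2 - 6 * a ^ 2)).add hS).sub hi).add (hR.const_mul (b ^ 2))
  have h1 := (((((hC.pow 3).const_mul (2 / 3 * (4 * a ^ 3 - 3 * a))).sub
    ((hC.pow 2).const_mul (4 * a ^ 3 - 3 * a))).sub (hC.const_mul (4 * b ^ 2 * a))).add
    (hL.const_mul (4 * b ^ 2 * a))).sub (i2.const_mul b)
  refine h1.congr_deriv ?_
  have e1 : Real.sin (2 * β - χ) = 2 * Real.sin β * Real.cos β * a -
      (2 * Real.cos β ^ 2 - 1) * b := by
    rw [Real.sin_sub, Real.sin_two_mul, Real.cos_two_mul]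
  have e2 : Real.sin (β - χ) = Real.sin β * a - Real.cos β * b := Real.sin_sub _ _
  rw [e1, e2]
  have e3 : (Real.cos β * (1 + Real.cos β) - Real.sin β * -Real.sin β) / (1 + Real.cos β) ^ 2 =
      1 / (1 + Real.cos β) := by
    rw [div_eq_div_iff (pow_ne_zero 2 h) h]
    linear_combination (1 + Real.cos β) * hSC
  rw [e3]
  set S := Real.sin β
  set C := Real.cos β
  rw [eq_div_iff h]
  have e4 : ∀ y : ℝ, y / (1 + C) * (1 + C) = y := fun y => div_mul_cancel₀ y h
  have e5 := e4 (-S)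
  have e6 := e4 1
  simp only [Nat.cast_ofNat]
  generalize -S / (1 + C) = X1 at *
  generalize 1 / (1 + C) = X2 at *
  linear_combination (4 * b ^ 2 * a) * e5 - b ^ 3 * e6 +
    ((-6)*a*S*C^3 + (6)*a*S*C + (2)*b*S^2*C^2 + (1)*b*S^2*C + (-1)*b*S^2 + (2)*b*C^4 + (1)*b*C^3 + (-2)*b*C^2 + (-1)*b*C) * hab +
    ((-2)*a^3*S*C + (-2)*a^2*b*C^2 + (-4)*a^2*b*C + (3)*a^2*b + (2)*b*C^2 + (1)*b*C + (-1)*b) * hSC

theorem der_m (χ β : ℝ) (h : 1 - Real.cos β ≠ 0) :
    HasDerivAt (Kmf χ)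
      (Real.sin (2 * β - χ) * Real.sin (β - χ) ^ 2 / (1 - Real.cos β)) β := by
  have hC := Real.hasDerivAt_cos β
  have hS := Real.hasDerivAt_sin β
  have hD : HasDerivAt (fun β => 1 - Real.cos β) (Real.sin β) β := by
    have := hC.const_sub 1
    rwa [neg_neg] at this
  have hL : HasDerivAt (fun β => Real.log (1 - Real.cos β)) (Real.sin β / (1 - Real.cos β)) β :=
    hD.log h
  have hR := hS.div hD h
  have hi := hasDerivAt_id β
  set a := Real.cos χ with ha
  set b := Real.sin χ with hb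
  have hab : b ^ 2 + a ^ 2 - 1 = 0 := by rw [ha, hb]; linarith [Real.sin_sq_add_cos_sq χ]
  have hSC : Real.sin β ^ 2 + Real.cos β ^ 2 - 1 = 0 := by linarith [Real.sin_sq_add_cos_sq β]
  have i1 := (hS.sub ((hS.pow 3).div_const 3)).add ((hi.add (hS.mul hC)).div_const 2)
  have i2 := (((i1.const_mul (-(2 * b ^ 2 - 6 * a ^ 2))).sub hS).sub hi).sub (hR.const_mul (b ^ 2))
  have h1 := (((((hC.pow 3).const_mul (-(2 / 3 * (4 * a ^ 3 - 3 * a)))).sub
    ((hC.pow 2).const_mul (4 * a ^ 3 - 3 * a))).add (hC.const_mul (4 * b ^ 2 * a))).add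
    (hL.const_mul (4 * b ^ 2 * a))).sub (i2.const_mul b)
  refine h1.congr_deriv ?_
  have e1 : Real.sin (2 * β - χ) = 2 * Real.sin β * Real.cos β * a -
      (2 * Real.cos β ^ 2 - 1) * b := by
    rw [Real.sin_sub, Real.sin_two_mul, Real.cos_two_mul]
  have e2 : Real.sin (β - χ) = Real.sin β * a - Real.cos β * b := Real.sin_sub _ _
  rw [e1, e2]
  have e3 : (Real.cos β * (1 - Real.cos β) - Real.sin β * Real.sin β) / (1 - Real.cos β) ^ 2 =
      -1 / (1 - Real.cos β) := by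
    rw [div_eq_div_iff (pow_ne_zero 2 h) h]
    linear_combination (-(1 - Real.cos β)) * hSC
  rw [e3]
  set S := Real.sin β
  set C := Real.cos β
  rw [eq_div_iff h]
  have e4 : ∀ y : ℝ, y / (1 - C) * (1 - C) = y := fun y => div_mul_cancel₀ y h
  have e5 := e4 S
  have e6 := e4 (-1)
  simp only [Nat.cast_ofNat]
  generalize S / (1 - C) = X1 at *
  generalize -1 / (1 - C) = X2 at *
  linear_combination (4 * b ^ 2 * a) * e5 + b ^ 3 * e6 +
    ((-6)*a*S*C^3 + (6)*a*S*C + (2)*b*S^2*C^2 + (-1)*b*S^2*C + (-1)*b*S^2 + (2)*b*C^4 + (-1)*b*C^3 + (-2)*b*C^2 + (1)*b*C) * hab +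
    ((-2)*a^3*S*C + (-2)*a^2*b*C^2 + (4)*a^2*b*C + (3)*a^2*b + (2)*b*C^2 + (-1)*b*C + (-1)*b) * hSC

theorem cos_gt (β : ℝ) (h0 : 0 ≤ β) (h : β < Real.pi) : 0 < 1 + Real.cos β := by
  have h1 := Real.strictAntiOn_cos (a := β) (b := Real.pi) ⟨h0, h.le⟩ ⟨Real.pi_pos.le, le_rfl⟩ h
  rw [Real.cos_pi] at h1
  linarith

theorem cos_lt (β : ℝ) (h0 : 0 < β) (h : β ≤ Real.pi) : 0 < 1 - Real.cos β := by
  have h1 := Real.strictAntiOn_cos (a := 0) (b := β) ⟨le_rfl, Real.pi_pos.le⟩ ⟨h0.le, h⟩ h0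
  rw [Real.cos_zero] at h1
  linarith

/-- the integral in terms of the primitives -/
theorem WW_eq (χ : ℝ) (h0 : 0 < χ) (h1 : χ < Real.pi) : WW χ =
    Kpf χ ((Real.pi + χ) / 2) - Kpf χ χ - (Kmf χ Real.pi - Kmf χ ((Real.pi + χ) / 2)) := by
  unfold WW
  have e1 : (∫ β in χ..(Real.pi + χ) / 2, Real.sin (2 * β - χ) * Real.sin (β - χ) ^ 2 /
      (1 + Real.cos β)) = Kpf χ ((Real.pi + χ) / 2) - Kpf χ χ := by
    apply intervalIntegral.integral_eq_sub_of_hasDerivAt
    · intro β hβ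
      rw [uIcc_of_le (by linarith)] at hβ
      exact der_p χ β (cos_gt β (by linarith [hβ.1]) (by linarith [hβ.2])).ne'
    · apply ContinuousOn.intervalIntegrable
      rw [uIcc_of_le (by linarith)]
      intro β hβ
      apply ContinuousAt.continuousWithinAt
      apply ContinuousAt.div (by fun_prop) (by fun_prop)
      exact (cos_gt β (by linarith [hβ.1]) (by linarith [hβ.2])).ne'
  have e2 : (∫ β in (Real.pi + χ) / 2..Real.pi, Real.sin (2 * β - χ) * Real.sin (β - χ) ^ 2 /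
      (1 - Real.cos β)) = Kmf χ Real.pi - Kmf χ ((Real.pi + χ) / 2) := by
    apply intervalIntegral.integral_eq_sub_of_hasDerivAt
    · intro β hβ
      rw [uIcc_of_le (by linarith)] at hβ
      exact der_m χ β (cos_lt β (by linarith [hβ.1]) hβ.2).ne'
    · apply ContinuousOn.intervalIntegrable
      rw [uIcc_of_le (by linarith)]
      intro β hβ
      apply ContinuousAt.continuousWithinAt
      apply ContinuousAt.div (by fun_prop) (by fun_prop)
      exact (cos_lt β (by linarith [hβ.1]) hβ.2).ne'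
  rw [e1, e2]

theorem s_W : S_W := by
  intro χ h0 h1
  rw [WW_eq χ h0 h1, WW_eq (Real.pi - χ) (by linarith) (by linarith)]
  unfold Kpf Kmf
  have c1 : Real.cos ((Real.pi + χ) / 2) = -Real.sin (χ / 2) := by
    rw [show (Real.pi + χ) / 2 = χ / 2 + Real.pi / 2 by ring, Real.cos_add_pi_div_two]
  have c2 : Real.sin ((Real.pi + χ) / 2) = Real.cos (χ / 2) := by
    rw [show (Real.pi + χ) / 2 = χ / 2 + Real.pi / 2 by ring, Real.sin_add_pi_div_two]
  have c3 : Real.cos ((Real.pi + (Real.pi - χ)) / 2) = -Real.cos (χ / 2) := by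
    rw [show (Real.pi + (Real.pi - χ)) / 2 = Real.pi - χ / 2 by ring, Real.cos_pi_sub]
  have c4 : Real.sin ((Real.pi + (Real.pi - χ)) / 2) = Real.sin (χ / 2) := by
    rw [show (Real.pi + (Real.pi - χ)) / 2 = Real.pi - χ / 2 by ring, Real.sin_pi_sub]
  rw [c1, c2, c3, c4, Real.cos_pi_sub, Real.sin_pi_sub, Real.cos_pi, Real.sin_pi]
  have d1 : Real.cos χ = 2 * Real.cos (χ / 2) ^ 2 - 1 := by
    rw [← Real.cos_two_mul]; congr 1; ring
  have d2 : Real.sin χ = 2 * Real.sin (χ / 2) * Real.cos (χ / 2) := by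
    rw [← Real.sin_two_mul]; congr 1; ring
  rw [d1, d2]
  have hs : 0 < Real.sin (χ / 2) := Real.sin_pos_of_pos_of_lt_pi (by linarith) (by linarith)
  have hk : 0 < Real.cos (χ / 2) :=
    Real.cos_pos_of_mem_Ioo ⟨by linarith [Real.pi_pos], by linarith⟩
  have hsk : Real.sin (χ / 2) ^ 2 + Real.cos (χ / 2) ^ 2 - 1 = 0 := by
    linarith [Real.sin_sq_add_cos_sq (χ / 2)]
  set s := Real.sin (χ / 2) with hsd
  set k := Real.cos (χ / 2) with hkd
  have hs1 : s < 1 := by nlinarith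
  have hk1 : k < 1 := by nlinarith
  have l1 : Real.log (1 + -s) + Real.log (1 - -s) = 2 * Real.log k := by
    rw [← Real.log_mul (by linarith) (by linarith), ← Real.log_rpow hk]
    congr 1
    rw [Real.rpow_two]
    linear_combination (-1 : ℝ) * hsk
  have l2 : Real.log (1 + -k) + Real.log (1 - -k) = 2 * Real.log s := by
    rw [← Real.log_mul (by linarith) (by linarith), ← Real.log_rpow hs]
    congr 1
    rw [Real.rpow_two]
    linear_combination (-1 : ℝ) * hsk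
  have l3 : Real.log (1 + (2 * k ^ 2 - 1)) = Real.log 2 + 2 * Real.log k := by
    rw [show 1 + (2 * k ^ 2 - 1) = 2 * k ^ 2 by ring, Real.log_mul (by norm_num) (by positivity),
      Real.log_pow]
    norm_num
  have l4 : Real.log (1 + -(2 * k ^ 2 - 1)) = Real.log 2 + 2 * Real.log s := by
    rw [show 1 + -(2 * k ^ 2 - 1) = 2 * s ^ 2 by linear_combination (-2 : ℝ) * hsk,
      Real.log_mul (by norm_num) (by positivity), Real.log_pow]
    norm_num
  have l5 : Real.log (1 - -1) = Real.log 2 := by norm_num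
  have r1 : (2 * s * k) * (k / (1 + -s)) = 2 * s * (1 + s) := by
    rw [mul_div_assoc', div_eq_iff (by linarith)]
    linear_combination (2 * s) * hsk
  have r2 : (2 * s * k) * (k / (1 - -s)) = 2 * s * (1 - s) := by
    rw [mul_div_assoc', div_eq_iff (by linarith)]
    linear_combination (2 * s) * hsk
  have r3 : (2 * s * k) * (s / (1 + -k)) = 2 * k * (1 + k) := by
    rw [mul_div_assoc', div_eq_iff (by linarith)]
    linear_combination (2 * k) * hsk
  have r4 : (2 * s * k) * (s / (1 - -k)) = 2 * k * (1 - k) := by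
    rw [mul_div_assoc', div_eq_iff (by linarith)]
    linear_combination (2 * k) * hsk
  have r5 : (2 * s * k) * (2 * s * k / (1 + (2 * k ^ 2 - 1))) = 2 * s ^ 2 := by
    rw [mul_div_assoc', div_eq_iff (by rw [show 1 + (2 * k ^ 2 - 1) = 2 * k ^ 2 by ring]; positivity)]
    ring
  have r6 : (2 * s * k) * (2 * s * k / (1 + -(2 * k ^ 2 - 1))) = 2 * k ^ 2 := by
    rw [show 1 + -(2 * k ^ 2 - 1) = 2 * s ^ 2 by linear_combination (-2 : ℝ) * hsk,
      mul_div_assoc', div_eq_iff (by positivity)]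
    ring
  unfold Kp Km
  rw [l3, l4, l5]
  simp only [zero_div]
  generalize k / (1 + -s) = R1 at *
  generalize k / (1 - -s) = R2 at *
  generalize s / (1 + -k) = R3 at *
  generalize s / (1 - -k) = R4 at *
  generalize 2 * s * k / (1 + (2 * k ^ 2 - 1)) = R5 at *
  generalize 2 * s * k / (1 + -(2 * k ^ 2 - 1)) = R6 at *
  generalize Real.log (1 + -s) = L1 at *
  generalize Real.log (1 - -s) = L2 at *
  generalize Real.log (1 + -k) = L3 at *
  generalize Real.log (1 - -k) = L4 at *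
  linear_combination (4 * (2 * s * k) ^ 2 * (2 * k ^ 2 - 1)) * l1 -
    (4 * (2 * s * k) ^ 2 * (2 * k ^ 2 - 1)) * l2 - (2 * s * k) ^ 2 * r1 + (2 * s * k) ^ 2 * r2 -
    (2 * s * k) ^ 2 * r3 + (2 * s * k) ^ 2 * r4 + (2 * s * k) ^ 2 * r5 + (2 * s * k) ^ 2 * r6 +
    ((-256/3)*s^4*k^6 + (1024/3)*s^2*k^8 + (-1024/3)*s^2*k^6 + (96)*s^2*k^4 + (-8)*s^2*k^2 + (-1024/3)*k^10 + (2048/3)*k^8 + (-1408/3)*k^6 + (160)*k^4 + (-28)*k^2 + (2)) * hsk

end Pool.Agent.L7h29.FB.W

namespace Pool.Agent.L7h29.FB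

theorem s_W : Pool.Agent.L7h64.FB.S_W := Pool.Agent.L7h29.FB.W.s_W

end Pool.Agent.L7h29.FB
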